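import Mathlib

/-!
Diffusion limited aggregation on the hypercube: definitions.
-/

open MeasureTheory ProbabilityTheory Filter Topology

namespace Pool.Agent.Lib.Pdb93e3

variable {n : ℕ}

/-- Vertices of the hypercube are identified with the set of their coordinates equal to one.
`walk σ i` is the vertex reached after `i` steps by the decreasing walk from the all-ones vertex
which switches off the coordinates `σ 0, σ 1, ...` in this order. -/
def walk (σ : Equiv.Perm (Fin n)) (i : ℕ) : Finset (Fin n) :=
  Finset.univ.filter fun a => i ≤ (σ.symm a : ℕ)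

/-- The index of the first vertex of the walk which lies in `C`. -/
noncomputable def hitTime (C : Finset (Finset (Fin n))) (σ : Equiv.Perm (Fin n)) : ℕ :=
  sInf {i | walk σ i ∈ C}

/-- The last vertex of the longest initial segment of the walk without vertices of `C`. -/
noncomputable def stick (C : Finset (Finset (Fin n))) (σ : Equiv.Perm (Fin n)) :
    Finset (Fin n) :=
  walk σ (hitTime C σ - 1)

/-- One step of the process. -/
noncomputable def step (C : Finset (Finset (Fin n))) (σ : Equiv.Perm (Fin n)) :
    Finset (Finset (Fin n)) :=
  insert (stick C σ) C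

/-- The cluster `C_t`, driven by the walks `ρ 0, ρ 1, ...`. -/
noncomputable def cluster (ρ : ℕ → Equiv.Perm (Fin n)) : ℕ → Finset (Finset (Fin n))
  | 0 => {∅}
  | t + 1 => step (cluster ρ t) (ρ t)

/-- The end time: the first `t` such that the all-ones vertex lies in `C_t`. -/
noncomputable def tEnd (ρ : ℕ → Equiv.Perm (Fin n)) : ℕ∞ :=
  ⨅ (t : ℕ) (_ : Finset.univ ∈ cluster ρ t), (t : ℕ∞)

/-- The discrete sigma-algebra on the finite set of permutations. -/
instance instMeasurableSpacePerm (n : ℕ) : MeasurableSpace (Equiv.Perm (Fin n)) := ⊤

instance instMeasurableSingletonClassPerm (n : ℕ) :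
    MeasurableSingletonClass (Equiv.Perm (Fin n)) := ⟨fun _ => trivial⟩

/-- The law of the sequence of walks: independent uniformly random permutations. -/
noncomputable def walkLaw (n : ℕ) : Measure (ℕ → Equiv.Perm (Fin n)) :=
  Measure.infinitePi fun _ => (PMF.uniformOfFintype (Equiv.Perm (Fin n))).toMeasure

end Pool.Agent.Lib.Pdb93e3
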