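import Pool.Agent.Lib.Pdb93e3.Defs

/-!
Diffusion limited aggregation on the hypercube ends after `o(2^n)` steps: the proof.
-/

open MeasureTheory ProbabilityTheory Filter Topology

namespace Pool.Agent.Lib.Pdb93e3

section Walk

variable {n : ℕ}

lemma walk_zero (σ : Equiv.Perm (Fin n)) : walk σ 0 = Finset.univ := by
  simp [walk]

lemma walk_of_le (σ : Equiv.Perm (Fin n)) {i : ℕ} (h : n ≤ i) : walk σ i = ∅ := by
  simp only [walk, Finset.filter_eq_empty_iff, Finset.mem_univ, true_implies, not_le]
  intro a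
  exact lt_of_lt_of_le (σ.symm a).2 h

lemma card_walk (σ : Equiv.Perm (Fin n)) (i : ℕ) : (walk σ i).card = n - i := by
  have h : walk σ i = (Finset.univ.filter fun b : Fin n => i ≤ (b : ℕ)).map σ.toEmbedding := by
    ext a
    simp only [walk, Finset.mem_filter, Finset.mem_univ, true_and, Finset.mem_map,
      Equiv.coe_toEmbedding]
    constructor
    · intro ha
      exact ⟨σ.symm a, ha, by simp⟩
    · rintro ⟨b, hb, rfl⟩
      simpa using hb
  rw [h, Finset.card_map]
  have : (Finset.univ.filter fun b : Fin n => i ≤ (b : ℕ)).card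
      = (Finset.univ.filter fun b : Fin n => ¬ ((b : ℕ) < i)).card := by
    congr 1
    ext b
    simp
  rw [this]
  have h2 := Finset.card_filter_add_card_filter_not (s := (Finset.univ : Finset (Fin n)))
    (fun b : Fin n => (b : ℕ) < i)
  rw [Fin.card_filter_val_lt, Finset.card_univ, Fintype.card_fin] at h2
  omega

lemma walk_mul (τ σ : Equiv.Perm (Fin n)) (i : ℕ) :
    walk (τ * σ) i = (walk σ i).map τ.toEmbedding := by
  ext a
  simp only [walk, Finset.mem_filter, Finset.mem_univ, true_and, Finset.mem_map,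
    Equiv.coe_toEmbedding]
  constructor
  · intro ha
    refine ⟨τ.symm a, ?_, by simp⟩
    simpa [Equiv.Perm.mul_def] using ha
  · rintro ⟨b, hb, rfl⟩
    simpa [Equiv.Perm.mul_def] using hb

/-- Two vertices on the same level are exchanged by a permutation of the coordinates. -/
lemma exists_perm_map {A B : Finset (Fin n)} (h : A.card = B.card) :
    ∃ τ : Equiv.Perm (Fin n), A.map τ.toEmbedding = B := by
  classical
  let e : {x // x ∈ A} ≃ {x // x ∈ B} := Finset.equivOfCardEq h
  refine ⟨e.extendSubtype, ?_⟩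
  apply Finset.eq_of_subset_of_card_le
  · intro b hb
    simp only [Finset.mem_map, Equiv.coe_toEmbedding] at hb
    obtain ⟨a, ha, rfl⟩ := hb
    exact e.extendSubtype_mem a ha
  · rw [Finset.card_map, h]

lemma card_walk_eq_congr {A B : Finset (Fin n)} (h : A.card = B.card) (i : ℕ) :
    (Finset.univ.filter fun σ : Equiv.Perm (Fin n) => walk σ i = A).card
      = (Finset.univ.filter fun σ : Equiv.Perm (Fin n) => walk σ i = B).card := by
  classical
  obtain ⟨τ, hτ⟩ := exists_perm_map h
  apply Finset.card_bij (fun σ _ => τ * σ)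
  · intro σ hσ
    simp only [Finset.mem_filter, Finset.mem_univ, true_and] at hσ ⊢
    rw [walk_mul, hσ, hτ]
  · intro σ₁ _ σ₂ _ h12
    exact mul_left_cancel h12
  · intro σ hσ
    simp only [Finset.mem_filter, Finset.mem_univ, true_and] at hσ
    refine ⟨τ⁻¹ * σ, ?_, by simp⟩
    simp only [Finset.mem_filter, Finset.mem_univ, true_and]
    have : walk (τ * (τ⁻¹ * σ)) i = B := by simpa using hσ
    rw [walk_mul, ← hτ] at this
    exact Finset.map_injective _ this

/-- The level `j` of the hypercube. -/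
def level (n j : ℕ) : Finset (Finset (Fin n)) := Finset.univ.filter fun A => A.card = j

/-- All vertices on levels at least `k`. -/
def upper (n k : ℕ) : Finset (Finset (Fin n)) := Finset.univ.filter fun A => k ≤ A.card

/-- Number of vertices of `C` on levels at least `k`. -/
def U (k : ℕ) (C : Finset (Finset (Fin n))) : ℕ := (C.filter fun A => k ≤ A.card).card

lemma card_filter_walk_eq {i : ℕ} {A : Finset (Fin n)} (hA : A.card = n - i) :
    (Finset.univ.filter fun σ : Equiv.Perm (Fin n) => walk σ i = A).card * (level n (n - i)).card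
      = n.factorial := by
  classical
  have h1 : (Finset.univ : Finset (Equiv.Perm (Fin n))).card = n.factorial := by
    rw [Finset.card_univ, Fintype.card_perm, Fintype.card_fin]
  have h2 : (Finset.univ : Finset (Equiv.Perm (Fin n))).card
      = ∑ B ∈ level n (n - i),
        (Finset.univ.filter fun σ : Equiv.Perm (Fin n) => walk σ i = B).card := by
    apply Finset.card_eq_sum_card_fiberwise
    intro σ _
    simp [level, card_walk]
  rw [← h1, h2]
  rw [Finset.sum_congr rfl (g := fun _ =>
    (Finset.univ.filter fun σ : Equiv.Perm (Fin n) => walk σ i = A).card)]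
  · rw [Finset.sum_const, smul_eq_mul, mul_comm]
  · intro B hB
    simp only [level, Finset.mem_filter, Finset.mem_univ, true_and] at hB
    exact card_walk_eq_congr (by rw [hA, hB]) i

lemma card_filter_walk_mem (i : ℕ) (C : Finset (Finset (Fin n))) :
    (Finset.univ.filter fun σ : Equiv.Perm (Fin n) => walk σ i ∈ C).card
        * (level n (n - i)).card
      = (C.filter fun A => A.card = n - i).card * n.factorial := by
  classical
  have h2 : (Finset.univ.filter fun σ : Equiv.Perm (Fin n) => walk σ i ∈ C).card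
      = ∑ B ∈ C.filter fun A => A.card = n - i,
        (Finset.univ.filter fun σ : Equiv.Perm (Fin n) => walk σ i = B).card := by
    rw [Finset.card_eq_sum_card_fiberwise (f := fun σ => walk σ i)
      (t := C.filter fun A => A.card = n - i)]
    · apply Finset.sum_congr rfl
      intro B hB
      congr 1
      ext σ
      simp only [Finset.mem_filter, Finset.mem_univ, true_and]
      constructor
      · rintro ⟨_, h⟩; exact h
      · intro h
        refine ⟨?_, h⟩
        rw [h]
        exact (Finset.mem_filter.1 hB).1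
    · intro σ hσ
      simp only [Finset.coe_filter, Finset.mem_univ, true_and, Set.mem_ofPred_eq] at hσ
      simp [card_walk, hσ]
  rw [h2, Finset.sum_mul, Finset.sum_congr rfl (g := fun _ => n.factorial)]
  · rw [Finset.sum_const, smul_eq_mul]
  · intro B hB
    exact card_filter_walk_eq (Finset.mem_filter.1 hB).2

lemma hitTime_le {C : Finset (Finset (Fin n))} {σ : Equiv.Perm (Fin n)} {i : ℕ}
    (h : walk σ i ∈ C) : hitTime C σ ≤ i := Nat.sInf_le h

lemma hitTime_pos {C : Finset (Finset (Fin n))} (h0 : ∅ ∈ C) (h1 : Finset.univ ∉ C)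
    (σ : Equiv.Perm (Fin n)) : 0 < hitTime C σ := by
  rw [Nat.pos_iff_ne_zero]
  intro h
  have hne : {i | walk σ i ∈ C}.Nonempty := ⟨n, by simp [walk_of_le σ le_rfl, h0]⟩
  have := Nat.sInf_mem hne
  have h2 : sInf {i | walk σ i ∈ C} = 0 := h
  rw [h2] at this
  simp only [Set.mem_ofPred_eq, walk_zero] at this
  exact h1 this

lemma stick_notMem {C : Finset (Finset (Fin n))} (h0 : ∅ ∈ C) (h1 : Finset.univ ∉ C)
    (σ : Equiv.Perm (Fin n)) : stick C σ ∉ C := by
  have hp := hitTime_pos h0 h1 σ
  have : hitTime C σ - 1 < sInf {i | walk σ i ∈ C} := by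
    change hitTime C σ - 1 < hitTime C σ
    omega
  exact Nat.notMem_of_lt_sInf this

lemma card_stick (C : Finset (Finset (Fin n))) (σ : Equiv.Perm (Fin n)) :
    (stick C σ).card = n - (hitTime C σ - 1) := card_walk _ _

lemma U_step_le (k : ℕ) (C : Finset (Finset (Fin n))) (σ : Equiv.Perm (Fin n)) :
    U k C ≤ U k (step C σ) := by
  apply Finset.card_le_card
  exact Finset.filter_subset_filter _ (Finset.subset_insert _ _)

lemma U_step_eq {k : ℕ} {C : Finset (Finset (Fin n))} (h0 : ∅ ∈ C) (h1 : Finset.univ ∉ C)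
    {σ : Equiv.Perm (Fin n)} {j : ℕ} (hkj : k ≤ j) (hjn : j ≤ n) (h : walk σ (n - j) ∈ C) :
    U (k + 1) (step C σ) = U (k + 1) C + 1 := by
  have hle := hitTime_le h
  have hp := hitTime_pos h0 h1 σ
  have hc := card_stick C σ
  unfold U step
  rw [Finset.filter_insert, if_pos (by omega), Finset.card_insert_of_notMem]
  intro hmem
  exact stick_notMem h0 h1 σ (Finset.mem_filter.1 hmem).1

lemma card_upper_eq_sum (k : ℕ) :
    (upper n k).card = ∑ j ∈ Finset.Icc k n, (level n j).card := by
  classical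
  rw [Finset.card_eq_sum_card_fiberwise (f := Finset.card) (t := Finset.Icc k n)]
  · apply Finset.sum_congr rfl
    intro j hj
    congr 1
    ext A
    simp only [upper, level, Finset.mem_filter, Finset.mem_univ, true_and]
    rw [Finset.mem_Icc] at hj
    constructor
    · rintro ⟨_, h⟩; exact h
    · intro h; exact ⟨by omega, h⟩
  · intro A hA
    simp only [upper, Finset.coe_filter, Finset.mem_univ, true_and, Set.mem_ofPred_eq] at hA
    simp only [Finset.coe_Icc, Set.mem_Icc]
    exact ⟨hA, by simpa using Finset.card_le_univ A⟩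

lemma U_eq_sum (k : ℕ) (C : Finset (Finset (Fin n))) :
    U k C = ∑ j ∈ Finset.Icc k n, (C.filter fun A => A.card = j).card := by
  classical
  unfold U
  rw [Finset.card_eq_sum_card_fiberwise (f := Finset.card) (t := Finset.Icc k n)]
  · apply Finset.sum_congr rfl
    intro j hj
    congr 1
    ext A
    simp only [Finset.mem_filter]
    rw [Finset.mem_Icc] at hj
    constructor
    · rintro ⟨⟨h1, _⟩, h⟩; exact ⟨h1, h⟩
    · rintro ⟨h1, h⟩; exact ⟨⟨h1, by omega⟩, h⟩
  · intro A hA
    simp only [Finset.coe_filter, Set.mem_ofPred_eq] at hA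
    simp only [Finset.coe_Icc, Set.mem_Icc]
    exact ⟨hA.2, by simpa using Finset.card_le_univ A⟩

/-- Key counting step: with probability at least `U k C / |upper n k|` a walk hits `C` on a
level at least `k`, and then the new vertex lies on a level at least `k + 1`. -/
lemma exists_level (k : ℕ) (hk : k ≤ n) (C : Finset (Finset (Fin n))) :
    ∃ j, k ≤ j ∧ j ≤ n ∧
      U k C * (level n j).card ≤ (C.filter fun A => A.card = j).card * (upper n k).card := by
  classical
  have hne : (Finset.Icc k n).Nonempty := ⟨k, by simp [hk]⟩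
  obtain ⟨j, hj, h⟩ := Finset.exists_le_of_sum_le (s := Finset.Icc k n)
    (f := fun j => U k C * (level n j).card)
    (g := fun j => (C.filter fun A => A.card = j).card * (upper n k).card) hne (by
      rw [← Finset.mul_sum, ← Finset.sum_mul, ← card_upper_eq_sum, ← U_eq_sum])
  rw [Finset.mem_Icc] at hj
  exact ⟨j, hj.1, hj.2, h⟩

lemma level_card_pos {j : ℕ} (hj : j ≤ n) : 0 < (level n j).card := by
  rw [Finset.card_pos]
  obtain ⟨A, _, hA⟩ := Finset.exists_subset_card_eq (s := (Finset.univ : Finset (Fin n)))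
    (n := j) (by simpa using hj)
  exact ⟨A, by simp [level, hA]⟩

lemma upper_card_pos {k : ℕ} (hk : k ≤ n) : 0 < (upper n k).card := by
  rw [Finset.card_pos]
  exact ⟨Finset.univ, by simp [upper, hk]⟩

lemma sum_half_pow_le {k : ℕ} (hk : k ≤ n) {C : Finset (Finset (Fin n))} (h0 : ∅ ∈ C)
    (h1 : Finset.univ ∉ C) :
    (∑ σ : Equiv.Perm (Fin n), ((1 : ℝ) / 2) ^ U (k + 1) (step C σ)) / n.factorial
      ≤ (1 / 2) ^ U (k + 1) C * (1 - ((U k C : ℝ) / (upper n k).card) / 2) := by
  classical
  obtain ⟨j, hkj, hjn, hj⟩ := exists_level k hk C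
  set S := Finset.univ.filter fun σ : Equiv.Perm (Fin n) => walk σ (n - j) ∈ C with hS
  have hfac : (0 : ℝ) < n.factorial := by exact_mod_cast n.factorial_pos
  have hSc := card_filter_walk_mem (n := n) (n - j) C
  rw [← hS, show n - (n - j) = j by omega] at hSc
  have hlev : (0 : ℝ) < (level n j).card := by exact_mod_cast level_card_pos hjn
  have hup : (0 : ℝ) < (upper n k).card := by exact_mod_cast upper_card_pos hk
  -- lower bound for `|S|`
  have hSge : (U k C : ℝ) / (upper n k).card * n.factorial ≤ S.card := by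
    rw [div_mul_eq_mul_div, div_le_iff₀ hup]
    have hj' : (U k C : ℝ) * (level n j).card
        ≤ (C.filter fun A => A.card = j).card * (upper n k).card := by exact_mod_cast hj
    have hSc' : (S.card : ℝ) * (level n j).card
        = (C.filter fun A => A.card = j).card * n.factorial := by exact_mod_cast hSc
    have : (U k C : ℝ) * n.factorial * (level n j).card
        ≤ S.card * (upper n k).card * (level n j).card := by
      calc (U k C : ℝ) * n.factorial * (level n j).card
          = (U k C : ℝ) * (level n j).card * n.factorial := by ring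
        _ ≤ (C.filter fun A => A.card = j).card * (upper n k).card * n.factorial := by
            gcongr
        _ = (S.card * (level n j).card) * (upper n k).card := by rw [hSc']; ring
        _ = S.card * (upper n k).card * (level n j).card := by ring
    exact le_of_mul_le_mul_right this hlev
  have hsum : ∑ σ : Equiv.Perm (Fin n), ((1 : ℝ) / 2) ^ U (k + 1) (step C σ)
      ≤ ∑ σ : Equiv.Perm (Fin n), (1 / 2) ^ U (k + 1) C * (1 - if σ ∈ S then 1 / 2 else 0) := by
    apply Finset.sum_le_sum
    intro σ _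
    by_cases hσ : σ ∈ S
    · rw [if_pos hσ]
      have : walk σ (n - j) ∈ C := by simpa [hS] using hσ
      rw [U_step_eq h0 h1 hkj hjn this, pow_succ]
      norm_num
    · rw [if_neg hσ, sub_zero, mul_one]
      exact pow_le_pow_of_le_one (by norm_num) (by norm_num) (U_step_le _ _ _)
  have hsum2 : ∑ σ : Equiv.Perm (Fin n),
        ((1 : ℝ) / 2) ^ U (k + 1) C * (1 - if σ ∈ S then 1 / 2 else 0)
      = (1 / 2) ^ U (k + 1) C * (n.factorial - S.card / 2) := by
    rw [← Finset.mul_sum, Finset.sum_sub_distrib, Finset.sum_ite_mem]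
    simp only [Finset.univ_inter, Finset.sum_const, Finset.card_univ, Fintype.card_perm,
      Fintype.card_fin, nsmul_eq_mul, mul_one]
    ring
  rw [div_le_iff₀ hfac]
  calc _ ≤ _ := hsum
    _ = _ := hsum2
    _ ≤ (1 / 2) ^ U (k + 1) C * (n.factorial - ((U k C : ℝ) / (upper n k).card * n.factorial) / 2) := by
        gcongr
    _ = _ := by ring

end Walk

section Avg

variable {n : ℕ}

/-- The transition operator of the process. -/
noncomputable def avg (f : Finset (Finset (Fin n)) → ℝ) (C : Finset (Finset (Fin n))) : ℝ :=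
  (∑ σ : Equiv.Perm (Fin n), f (step C σ)) / n.factorial

lemma avg_le {f : Finset (Finset (Fin n)) → ℝ} {C : Finset (Finset (Fin n))} {B : ℝ}
    (h : ∀ σ, f (step C σ) ≤ B) : avg f C ≤ B := by
  have hfac : (0 : ℝ) < n.factorial := by exact_mod_cast n.factorial_pos
  unfold avg
  rw [div_le_iff₀ hfac]
  calc ∑ σ : Equiv.Perm (Fin n), f (step C σ) ≤ ∑ _σ : Equiv.Perm (Fin n), B :=
        Finset.sum_le_sum fun σ _ => h σ
    _ = B * n.factorial := by
        rw [Finset.sum_const, Finset.card_univ, Fintype.card_perm, Fintype.card_fin,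
          nsmul_eq_mul, mul_comm]

lemma avg_mono {f g : Finset (Finset (Fin n)) → ℝ} {C : Finset (Finset (Fin n))}
    (h : ∀ σ, f (step C σ) ≤ g (step C σ)) : avg f C ≤ avg g C := by
  unfold avg
  gcongr with σ
  exact h σ

lemma avg_const_add_mul (a b : ℝ) (f : Finset (Finset (Fin n)) → ℝ) :
    avg (fun D => a + b * f D) = fun C => a + b * avg f C := by
  have hfac : (0 : ℝ) < n.factorial := by exact_mod_cast n.factorial_pos
  funext C
  unfold avg
  rw [Finset.sum_add_distrib, ← Finset.mul_sum, Finset.sum_const, Finset.card_univ,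
    Fintype.card_perm, Fintype.card_fin, nsmul_eq_mul]
  field_simp

lemma iter_const_add_mul (a b : ℝ) (m : ℕ) (f : Finset (Finset (Fin n)) → ℝ) :
    avg^[m] (fun D => a + b * f D) = fun C => a + b * avg^[m] f C := by
  induction m with
  | zero => rfl
  | succ m ih => rw [Function.iterate_succ_apply', ih, avg_const_add_mul,
      Function.iterate_succ_apply']

lemma subset_step (C : Finset (Finset (Fin n))) (σ : Equiv.Perm (Fin n)) : C ⊆ step C σ :=
  Finset.subset_insert _ _

lemma card_step {C : Finset (Finset (Fin n))} (h0 : ∅ ∈ C) (h1 : Finset.univ ∉ C)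
    (σ : Equiv.Perm (Fin n)) : (step C σ).card = C.card + 1 := by
  unfold step
  rw [Finset.card_insert_of_notMem (stick_notMem h0 h1 σ)]

lemma iter_le {f : Finset (Finset (Fin n)) → ℝ} {B : ℝ} (m : ℕ) :
    ∀ C : Finset (Finset (Fin n)), ∅ ∈ C →
      (∀ D, ∅ ∈ D → C ⊆ D → (Finset.univ ∉ D → D.card = C.card + m) → f D ≤ B) →
      avg^[m] f C ≤ B := by
  induction m with
  | zero =>
    intro C h0 h
    exact h C h0 (Finset.Subset.refl _) (fun _ => rfl)
  | succ m ih =>
    intro C h0 h
    rw [Function.iterate_succ_apply']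
    apply avg_le
    intro σ
    apply ih (step C σ) (subset_step C σ h0)
    intro D hD0 hD hD'
    apply h D hD0 ((subset_step C σ).trans hD)
    intro hDu
    have h1 : Finset.univ ∉ C := fun hc => hDu (((subset_step C σ).trans hD) hc)
    rw [hD' hDu, card_step h0 h1]
    ring

lemma iter_mono {f g : Finset (Finset (Fin n)) → ℝ} (m : ℕ)
    (h : ∀ D, ∅ ∈ D → f D ≤ g D) :
    ∀ C : Finset (Finset (Fin n)), ∅ ∈ C → avg^[m] f C ≤ avg^[m] g C := by
  induction m with
  | zero => exact h
  | succ m ih =>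
    intro C h0
    rw [Function.iterate_succ_apply', Function.iterate_succ_apply']
    exact avg_mono fun σ => ih _ (subset_step C σ h0)

open Classical in
/-- Indicator of survival: the all-ones vertex is not yet occupied. -/
noncomputable def surv (D : Finset (Finset (Fin n))) : ℝ :=
  if Finset.univ ∈ D then 0 else 1

open Classical in
/-- Exponential weight used in the large deviation estimate. -/
noncomputable def wt (k : ℕ) (D : Finset (Finset (Fin n))) : ℝ :=
  if Finset.univ ∈ D then 0 else (1 / 2) ^ U k D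

lemma U_le (k : ℕ) (C : Finset (Finset (Fin n))) : U k C ≤ (upper n k).card := by
  apply Finset.card_le_card
  intro A hA
  simp only [upper, Finset.mem_filter, Finset.mem_univ, true_and]
  exact (Finset.mem_filter.1 hA).2

lemma stage {k : ℕ} (hk : k ≤ n) {x : ℝ} (m : ℕ) :
    ∀ C : Finset (Finset (Fin n)), ∅ ∈ C → x ≤ (U k C : ℝ) / (upper n k).card →
      avg^[m] (wt (k + 1)) C ≤ (1 / 2) ^ U (k + 1) C * (1 - x / 2) ^ m := by
  have hup : (0 : ℝ) < (upper n k).card := by exact_mod_cast upper_card_pos hk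
  have hx1 : ∀ C : Finset (Finset (Fin n)), (U k C : ℝ) / (upper n k).card ≤ 1 := by
    intro C
    rw [div_le_one hup]
    exact_mod_cast U_le k C
  induction m with
  | zero =>
    intro C h0 hx
    simp only [Function.iterate_zero, id_eq, pow_zero, mul_one]
    unfold wt
    split_ifs
    · positivity
    · exact le_rfl
  | succ m ih =>
    intro C h0 hx
    have hxle : x ≤ 1 := hx.trans (hx1 C)
    by_cases h1 : Finset.univ ∈ C
    · have h : avg^[m + 1] (wt (k + 1)) C ≤ 0 := by
        apply iter_le _ C h0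
        intro D _ hD _
        unfold wt
        rw [if_pos (hD h1)]
      refine h.trans ?_
      have : 0 ≤ 1 - x / 2 := by linarith
      positivity
    · rw [Function.iterate_succ_apply']
      have hnn : 0 ≤ (1 - x / 2) ^ m := pow_nonneg (by linarith) m
      calc avg (avg^[m] (wt (k + 1))) C
          ≤ avg (fun D => 0 + (1 - x / 2) ^ m * (1 / 2) ^ U (k + 1) D) C := by
            apply avg_mono
            intro σ
            have h2 : x ≤ (U k (step C σ) : ℝ) / (upper n k).card := by
              refine hx.trans ?_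
              gcongr
              exact U_step_le _ _ _
            have := ih (step C σ) (subset_step C σ h0) h2
            simpa [mul_comm] using this
        _ = (1 - x / 2) ^ m * avg (fun D => (1 / 2) ^ U (k + 1) D) C := by
            rw [avg_const_add_mul]; simp
        _ ≤ (1 - x / 2) ^ m *
              ((1 / 2) ^ U (k + 1) C * (1 - ((U k C : ℝ) / (upper n k).card) / 2)) := by
            gcongr
            exact sum_half_pow_le hk h0 h1
        _ ≤ (1 - x / 2) ^ m * ((1 / 2) ^ U (k + 1) C * (1 - x / 2)) := by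
            gcongr
        _ = _ := by ring

lemma surv_le_one (D : Finset (Finset (Fin n))) : surv D ≤ 1 := by
  unfold surv; split_ifs <;> norm_num

lemma surv_nonneg (D : Finset (Finset (Fin n))) : 0 ≤ surv D := by
  unfold surv; split_ifs <;> norm_num

lemma iter_surv_le_one (m : ℕ) (C : Finset (Finset (Fin n))) (h0 : ∅ ∈ C) :
    avg^[m] surv C ≤ 1 :=
  iter_le m C h0 fun D _ _ _ => surv_le_one D

lemma iter_surv_le_surv (m : ℕ) (C : Finset (Finset (Fin n))) (h0 : ∅ ∈ C) :
    avg^[m] surv C ≤ surv C := by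
  by_cases h : Finset.univ ∈ C
  · apply iter_le m C h0
    intro D _ hD _
    unfold surv
    rw [if_pos h, if_pos (hD h)]
  · have : surv C = 1 := by unfold surv; rw [if_neg h]
    rw [this]
    exact iter_surv_le_one m C h0

lemma iter_surv_of_mem (m : ℕ) (C : Finset (Finset (Fin n))) (h0 : ∅ ∈ C)
    (h : Finset.univ ∈ C) : avg^[m] surv C ≤ 0 := by
  have := iter_surv_le_surv m C h0
  rwa [show surv C = 0 by unfold surv; rw [if_pos h]] at this

/-- The survival probability over the remaining stages. -/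
lemma survive_stages {m : ℕ} {η : ℕ → ℝ} {k₀ : ℕ}
    (hη : ∀ k, 0 < η k)
    (hstep : ∀ k, k₀ ≤ k → k < n → η (k + 1) * (upper n (k + 1)).card ≤ η k * m / 4) :
    ∀ j k : ℕ, k + j = n → k₀ ≤ k → ∀ C : Finset (Finset (Fin n)), ∅ ∈ C →
      (Finset.univ ∉ C → η k * (upper n k).card ≤ U k C) →
      avg^[j * m] surv C ≤ ∑ i ∈ Finset.range j, Real.exp (-(η (k + i) * m / 4)) := by
  intro j
  induction j with
  | zero =>
    intro k hkn hk C h0 hC
    have hkn' : k = n := by omega
    subst hkn'
    simp only [zero_mul, Function.iterate_zero, id_eq, Finset.range_zero, Finset.sum_empty]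
    by_cases h : Finset.univ ∈ C
    · unfold surv; rw [if_pos h]
    · exfalso
      have h1 := hC h
      have h2 : 0 < (U k C : ℝ) := by
        refine lt_of_lt_of_le ?_ h1
        have : (0 : ℝ) < (upper k k).card := by exact_mod_cast upper_card_pos le_rfl
        exact mul_pos (hη k) this
      have h3 : 0 < U k C := by exact_mod_cast h2
      unfold U at h3
      rw [Finset.card_pos] at h3
      obtain ⟨A, hA⟩ := h3
      rw [Finset.mem_filter] at hA
      have : A = Finset.univ := by
        apply Finset.eq_univ_of_card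
        have := Finset.card_le_univ A
        simp only [Fintype.card_fin] at this ⊢
        omega
      rw [this] at hA
      exact h hA.1
  | succ j ih =>
    intro k hkn hk C h0 hC
    by_cases h1 : Finset.univ ∈ C
    · exact (iter_surv_of_mem _ C h0 h1).trans
        (Finset.sum_nonneg fun i _ => (Real.exp_pos _).le)
    have hCk := hC h1
    have hkn' : k < n := by omega
    have hup : (0 : ℝ) < (upper n k).card := by exact_mod_cast upper_card_pos hkn'.le
    set r : ℝ := η (k + 1) * (upper n (k + 1)).card with hr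
    set B : ℝ := ∑ i ∈ Finset.range j, Real.exp (-(η (k + 1 + i) * m / 4)) with hB
    have hB0 : 0 ≤ B := Finset.sum_nonneg fun i _ => (Real.exp_pos _).le
    have hxle : η k ≤ (U k C : ℝ) / (upper n k).card := by
      rw [le_div_iff₀ hup]; exact hCk
    have hηle : η k ≤ 1 := by
      refine hxle.trans ?_
      rw [div_le_one hup]
      exact_mod_cast U_le k C
    have key : avg^[m] (avg^[j * m] surv) C ≤ avg^[m] (fun D => B + (2 : ℝ) ^ r * wt (k + 1) D) C := by
      apply iter_mono m _ C h0
      intro D hD0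
      by_cases hDu : Finset.univ ∈ D
      · have := iter_surv_of_mem (j * m) D hD0 hDu
        have hw : wt (k + 1) D = 0 := by unfold wt; rw [if_pos hDu]
        rw [hw]
        linarith
      · by_cases hD1 : r ≤ U (k + 1) D
        · have := ih (k + 1) (by omega) (by omega) D hD0 (fun _ => hD1)
          have hw : 0 ≤ wt (k + 1) D := by unfold wt; split_ifs <;> positivity
          have h2 : 0 ≤ (2 : ℝ) ^ r * wt (k + 1) D := by positivity
          linarith
        · have h3 : (1 : ℝ) ≤ (2 : ℝ) ^ r * wt (k + 1) D := by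
            unfold wt
            rw [if_neg hDu, one_div, inv_pow, ← div_eq_mul_inv, le_div_iff₀ (by positivity),
              one_mul, ← Real.rpow_natCast]
            exact Real.rpow_le_rpow_of_exponent_le (by norm_num) (by linarith)
          have := iter_surv_le_one (j * m) D hD0
          linarith
    have hst := stage hkn'.le m C h0 hxle
    have hexp : (2 : ℝ) ^ r * ((1 / 2) ^ U (k + 1) C * (1 - η k / 2) ^ m)
        ≤ Real.exp (-(η k * m / 4)) := by
      have e1 : (1 - η k / 2) ^ m ≤ Real.exp (-(η k * m / 2)) := by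
        have : 1 - η k / 2 ≤ Real.exp (-(η k / 2)) := by
          have := Real.add_one_le_exp (-(η k / 2)); linarith
        calc (1 - η k / 2) ^ m ≤ (Real.exp (-(η k / 2))) ^ m := by
              gcongr; linarith
          _ = Real.exp (-(η k * m / 2)) := by
              rw [← Real.exp_nat_mul]; congr 1; ring
      have e2 : (2 : ℝ) ^ r ≤ Real.exp (η k * m / 4) := by
        have hr' : r ≤ η k * m / 4 := hstep k hk hkn'
        have hpos : 0 ≤ η k * m / 4 := by have := hη k; positivity
        calc (2 : ℝ) ^ r ≤ (2 : ℝ) ^ (η k * m / 4) :=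
              Real.rpow_le_rpow_of_exponent_le (by norm_num) hr'
          _ ≤ (Real.exp 1) ^ (η k * m / 4) := by
              apply Real.rpow_le_rpow (by norm_num) _ hpos
              have := Real.exp_one_gt_d9; linarith
          _ = Real.exp (η k * m / 4) := by rw [← Real.exp_mul, one_mul]
      have e3 : ((1 : ℝ) / 2) ^ U (k + 1) C ≤ 1 := pow_le_one₀ (by norm_num) (by norm_num)
      have e4 : 0 ≤ (1 - η k / 2) ^ m := pow_nonneg (by linarith) m
      calc (2 : ℝ) ^ r * ((1 / 2) ^ U (k + 1) C * (1 - η k / 2) ^ m)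
          ≤ Real.exp (η k * m / 4) * (1 * Real.exp (-(η k * m / 2))) := by
            gcongr
        _ = Real.exp (-(η k * m / 4)) := by
            rw [one_mul, ← Real.exp_add]; congr 1; ring
    have hit : avg^[(j + 1) * m] surv C = avg^[m] (avg^[j * m] surv) C := by
      rw [← Function.iterate_add_apply, add_one_mul, add_comm m]
    rw [hit, Finset.sum_range_succ']
    refine key.trans ?_
    rw [iter_const_add_mul]
    have hsum : B = ∑ i ∈ Finset.range j, Real.exp (-(η (k + (i + 1)) * m / 4)) := by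
      rw [hB]
      apply Finset.sum_congr rfl
      intro i _
      rw [add_right_comm k 1 i, add_assoc k i 1]
    have h2r : (0 : ℝ) ≤ 2 ^ r := by positivity
    have := mul_le_mul_of_nonneg_left hst h2r
    simp only [add_zero]
    rw [← hsum]
    linarith

/-- Survival bound for the whole process. -/
lemma survive_total {m t₀ T : ℕ} {η : ℕ → ℝ} {k₀ : ℕ} (hk₀ : k₀ ≤ n)
    (hη : ∀ k, 0 < η k)
    (hstep : ∀ k, k₀ ≤ k → k < n → η (k + 1) * (upper n (k + 1)).card ≤ η k * m / 4)
    (hstart : η k₀ * (upper n k₀).card +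
      ((Finset.univ.filter fun A : Finset (Fin n) => ¬ k₀ ≤ A.card).card : ℝ) ≤ t₀)
    (hT : t₀ + (n - k₀) * m ≤ T) :
    avg^[T] surv ({∅} : Finset (Finset (Fin n)))
      ≤ ∑ i ∈ Finset.range (n - k₀), Real.exp (-(η (k₀ + i) * m / 4)) := by
  classical
  obtain ⟨T', rfl⟩ := Nat.exists_eq_add_of_le hT
  rw [Function.iterate_add_apply]
  have h0 : (∅ : Finset (Fin n)) ∈ ({∅} : Finset (Finset (Fin n))) := by simp
  refine (iter_mono _ (g := surv) (fun D hD => iter_surv_le_surv T' D hD) _ h0).trans ?_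
  rw [Function.iterate_add_apply]
  apply iter_le _ _ h0
  intro D hD0 _ hD
  apply survive_stages hη hstep (n - k₀) k₀ (by omega) le_rfl D hD0
  intro hDu
  have hc := hD hDu
  have h1 := Finset.card_filter_add_card_filter_not (s := D) (fun A => k₀ ≤ A.card)
  have h2 : (D.filter fun A => ¬ k₀ ≤ A.card).card
      ≤ (Finset.univ.filter fun A : Finset (Fin n) => ¬ k₀ ≤ A.card).card :=
    Finset.card_le_card (Finset.filter_subset_filter _ (Finset.subset_univ _))
  have h3 : t₀ ≤ U k₀ D + (Finset.univ.filter fun A : Finset (Fin n) => ¬ k₀ ≤ A.card).card := by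
    unfold U
    simp only [Finset.card_singleton] at hc
    omega
  have h3' : (t₀ : ℝ) ≤ U k₀ D +
      ((Finset.univ.filter fun A : Finset (Fin n) => ¬ k₀ ≤ A.card).card : ℝ) := by
    exact_mod_cast h3
  linarith

end Avg

section Prob

variable {n : ℕ}

instance : IsProbabilityMeasure (walkLaw n) := by unfold walkLaw; infer_instance

lemma cluster_congr {ρ ρ' : ℕ → Equiv.Perm (Fin n)} {T : ℕ} (h : ∀ t < T, ρ t = ρ' t) :
    cluster ρ T = cluster ρ' T := by
  induction T with
  | zero => rfl
  | succ T ih =>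
    unfold cluster
    rw [ih fun t ht => h t (by omega), h T (by omega)]

lemma prob_joint (T : ℕ) (C : Finset (Finset (Fin n))) (σ : Equiv.Perm (Fin n)) :
    (walkLaw n).real {ρ | cluster ρ T = C ∧ ρ T = σ}
      = (walkLaw n).real {ρ | cluster ρ T = C} / n.factorial := by
  classical
  have hind : iIndepFun (fun (i : ℕ) (ρ : ℕ → Equiv.Perm (Fin n)) => ρ i) (walkLaw n) :=
    iIndepFun_infinitePi (X := fun (_ : ℕ) (σ : Equiv.Perm (Fin n)) => σ)
      (P := fun _ => (PMF.uniformOfFintype (Equiv.Perm (Fin n))).toMeasure)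
      (fun _ => measurable_id)
  have h2 := hind.indepFun_finset (Finset.range T) {T} (by simp) (fun i => measurable_pi_apply i)
  let A : Set (Finset.range T → Equiv.Perm (Fin n)) :=
    {g | cluster (fun i => if h : i ∈ Finset.range T then g ⟨i, h⟩ else 1) T = C}
  let B : Set (({T} : Finset ℕ) → Equiv.Perm (Fin n)) :=
    {g | g ⟨T, Finset.mem_singleton_self T⟩ = σ}
  have hA : MeasurableSet A := Set.Finite.measurableSet (Set.toFinite _)
  have hB : MeasurableSet B := Set.Finite.measurableSet (Set.toFinite _)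
  have h3 := h2.measure_inter_preimage_eq_mul A B hA hB
  have hAe : (fun (a : ℕ → Equiv.Perm (Fin n)) (i : Finset.range T) => a i) ⁻¹' A
      = {ρ | cluster ρ T = C} := by
    ext ρ
    simp only [A, Set.mem_preimage, Set.mem_ofPred_eq]
    rw [cluster_congr (ρ' := ρ)]
    intro t ht
    simp [ht]
  have hBe : (fun (a : ℕ → Equiv.Perm (Fin n)) (i : ({T} : Finset ℕ)) => a i) ⁻¹' B
      = {ρ | ρ T = σ} := by
    ext ρ
    simp [B]
  rw [hAe, hBe] at h3
  have hσ : walkLaw n {ρ | ρ T = σ} = (n.factorial : ENNReal)⁻¹ := by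
    have hm := Measure.infinitePi_map_eval
      (μ := fun _ : ℕ => (PMF.uniformOfFintype (Equiv.Perm (Fin n))).toMeasure) T
    have : walkLaw n {ρ | ρ T = σ}
        = ((walkLaw n).map (fun ρ => ρ T)) {σ} := by
      rw [Measure.map_apply (measurable_pi_apply T) (measurableSet_singleton σ)]
      rfl
    rw [this]
    unfold walkLaw
    rw [hm, PMF.toMeasure_apply_singleton _ _ (measurableSet_singleton σ),
      PMF.uniformOfFintype_apply, Fintype.card_perm, Fintype.card_fin]
  have hset : {ρ : ℕ → Equiv.Perm (Fin n) | cluster ρ T = C ∧ ρ T = σ}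
      = {ρ | cluster ρ T = C} ∩ {ρ | ρ T = σ} := rfl
  rw [hset]
  unfold Measure.real
  rw [h3, hσ, ENNReal.toReal_mul, ENNReal.toReal_inv, div_eq_mul_inv]
  simp

lemma measurableSet_cluster (T : ℕ) (C : Finset (Finset (Fin n))) :
    MeasurableSet {ρ : ℕ → Equiv.Perm (Fin n) | cluster ρ T = C} := by
  classical
  let A : Set (Finset.range T → Equiv.Perm (Fin n)) :=
    {g | cluster (fun i => if h : i ∈ Finset.range T then g ⟨i, h⟩ else 1) T = C}
  have hA : MeasurableSet A := Set.Finite.measurableSet (Set.toFinite _)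
  have hAe : (fun (a : ℕ → Equiv.Perm (Fin n)) (i : Finset.range T) => a i) ⁻¹' A
      = {ρ | cluster ρ T = C} := by
    ext ρ
    simp only [A, Set.mem_preimage, Set.mem_ofPred_eq]
    rw [cluster_congr (ρ' := ρ)]
    intro t ht
    simp [ht]
  rw [← hAe]
  exact (measurable_pi_lambda _ fun i => measurable_pi_apply _) hA

lemma measurableSet_walk (T : ℕ) (σ : Equiv.Perm (Fin n)) :
    MeasurableSet {ρ : ℕ → Equiv.Perm (Fin n) | ρ T = σ} :=
  (measurable_pi_apply (X := fun _ : ℕ => Equiv.Perm (Fin n)) T) (measurableSet_singleton σ)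

lemma sum_prob (T : ℕ) : ∀ f : Finset (Finset (Fin n)) → ℝ,
    ∑ D, (walkLaw n).real {ρ | cluster ρ T = D} * f D = avg^[T] f {∅} := by
  classical
  induction T with
  | zero =>
    intro f
    have : ∀ D : Finset (Finset (Fin n)),
        (walkLaw n).real {ρ : ℕ → Equiv.Perm (Fin n) | cluster ρ 0 = D}
          = if D = {∅} then 1 else 0 := by
      intro D
      split_ifs with h
      · subst h
        have : {ρ : ℕ → Equiv.Perm (Fin n) | cluster ρ 0 = {∅}} = Set.univ := by
          ext ρ; simp [cluster]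
        rw [this]
        simp
      · have : {ρ : ℕ → Equiv.Perm (Fin n) | cluster ρ 0 = D} = ∅ := by
          ext ρ
          simp only [cluster, Set.mem_ofPred_eq, Set.mem_empty_iff_false, iff_false]
          exact fun h' => h h'.symm
        rw [this]
        simp
    simp [this]
  | succ T ih =>
    intro f
    rw [Function.iterate_succ_apply, ← ih (avg f)]
    have hfac : (0 : ℝ) < n.factorial := by exact_mod_cast n.factorial_pos
    have h1 : ∀ D : Finset (Finset (Fin n)),
        (walkLaw n).real {ρ : ℕ → Equiv.Perm (Fin n) | cluster ρ (T + 1) = D}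
          = ∑ C, ∑ σ : Equiv.Perm (Fin n),
            (if step C σ = D then (walkLaw n).real {ρ | cluster ρ T = C} / n.factorial else 0) := by
      intro D
      have hset : {ρ : ℕ → Equiv.Perm (Fin n) | cluster ρ (T + 1) = D}
          = ⋃ p ∈ (Finset.univ.filter fun p : Finset (Finset (Fin n)) × Equiv.Perm (Fin n) =>
              step p.1 p.2 = D), {ρ | cluster ρ T = p.1 ∧ ρ T = p.2} := by
        ext ρ
        simp only [cluster, Set.mem_ofPred_eq, Finset.mem_filter, Finset.mem_univ, true_and,
          Set.mem_iUnion, exists_prop, Prod.exists]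
        constructor
        · intro h
          exact ⟨_, _, h, rfl, rfl⟩
        · rintro ⟨C, σ, h, h1, h2⟩
          rw [h1, h2, h]
      rw [hset, measureReal_biUnion_finset]
      · rw [Finset.sum_filter, Fintype.sum_prod_type]
        apply Finset.sum_congr rfl
        intro C _
        apply Finset.sum_congr rfl
        intro σ _
        rw [prob_joint]
      · intro p _ q _ hpq
        rw [Function.onFun, Set.disjoint_left]
        rintro ρ ⟨h1, h2⟩ ⟨h3, h4⟩
        apply hpq
        ext1
        · rw [← h1, ← h3]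
        · rw [← h2, ← h4]
      · intro p _
        exact (measurableSet_cluster T p.1).inter (measurableSet_walk T p.2)
    simp only [h1]
    rw [show (∑ D : Finset (Finset (Fin n)), (∑ C : Finset (Finset (Fin n)),
          ∑ σ : Equiv.Perm (Fin n), if step C σ = D then
            (walkLaw n).real {ρ | cluster ρ T = C} / n.factorial else 0) * f D)
        = ∑ D : Finset (Finset (Fin n)), ∑ C : Finset (Finset (Fin n)),
          ∑ σ : Equiv.Perm (Fin n), (if step C σ = D then
            (walkLaw n).real {ρ | cluster ρ T = C} / n.factorial else 0) * f D from by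
      apply Finset.sum_congr rfl
      intro D _
      rw [Finset.sum_mul]
      apply Finset.sum_congr rfl
      intro C _
      rw [Finset.sum_mul]]
    rw [Finset.sum_comm]
    apply Finset.sum_congr rfl
    intro C _
    rw [Finset.sum_comm]
    unfold avg
    rw [mul_div_assoc', Finset.mul_sum, Finset.sum_div]
    apply Finset.sum_congr rfl
    intro σ _
    simp only [ite_mul, zero_mul]
    rw [Finset.sum_ite_eq]
    simp only [Finset.mem_univ, if_true]
    ring

lemma prob_surv (T : ℕ) :
    (walkLaw n).real {ρ : ℕ → Equiv.Perm (Fin n) | Finset.univ ∉ cluster ρ T}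
      = avg^[T] surv ({∅} : Finset (Finset (Fin n))) := by
  classical
  rw [← sum_prob]
  have hset : {ρ : ℕ → Equiv.Perm (Fin n) | Finset.univ ∉ cluster ρ T}
      = ⋃ D ∈ (Finset.univ.filter fun D : Finset (Finset (Fin n)) => Finset.univ ∉ D),
        {ρ | cluster ρ T = D} := by
    ext ρ
    simp
  rw [hset, measureReal_biUnion_finset]
  · rw [Finset.sum_filter]
    apply Finset.sum_congr rfl
    intro D _
    unfold surv
    by_cases h : Finset.univ ∈ D <;> simp [h]
  · intro p _ q _ hpq
    rw [Function.onFun, Set.disjoint_left]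
    rintro ρ h1 h2
    exact hpq (h1.symm.trans h2)
  · intro D _
    exact measurableSet_cluster T D

lemma prob_tEnd_le (x : ℝ) (T : ℕ) (hT : (T : ℝ) ≤ x) :
    walkLaw n {ρ | ENNReal.ofReal x < ((tEnd ρ : ℕ∞) : ENNReal)}
      ≤ ENNReal.ofReal (avg^[T] surv ({∅} : Finset (Finset (Fin n)))) := by
  rw [← prob_surv, ofReal_measureReal]
  apply measure_mono
  intro ρ hρ
  simp only [Set.mem_ofPred_eq] at hρ ⊢
  intro hmem
  have h1 : tEnd ρ ≤ (T : ℕ∞) := by
    unfold tEnd
    exact iInf₂_le T hmem
  have h2 : ((tEnd ρ : ℕ∞) : ENNReal) ≤ ENNReal.ofReal x := by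
    calc ((tEnd ρ : ℕ∞) : ENNReal) ≤ ((T : ℕ∞) : ENNReal) := by exact_mod_cast h1
      _ = ENNReal.ofReal (T : ℝ) := by simp
      _ ≤ ENNReal.ofReal x := ENNReal.ofReal_le_ofReal hT
  exact absurd hρ (not_lt.2 h2)

end Prob

section Asymp

variable {n : ℕ}

lemma sum_exp_card (l : ℝ) :
    ∑ A : Finset (Fin n), Real.exp (l * ((A.card : ℝ) - n / 2)) ≤ 2 ^ n * Real.exp (n * l ^ 2 / 8) := by
  have h1 : ∀ A : Finset (Fin n), Real.exp (l * ((A.card : ℝ) - n / 2))
      = Real.exp (l / 2) ^ A.card * Real.exp (-(l / 2)) ^ (n - A.card) := by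
    intro A
    have hA : A.card ≤ n := by simpa using Finset.card_le_univ A
    rw [← Real.exp_nat_mul, ← Real.exp_nat_mul, ← Real.exp_add]
    congr 1
    push_cast [Nat.cast_sub hA]
    ring
  simp only [h1]
  have h2 := Finset.sum_pow_mul_eq_add_pow (Real.exp (l / 2)) (Real.exp (-(l / 2)))
    (Finset.univ : Finset (Fin n))
  rw [Finset.powerset_univ, Finset.card_univ, Fintype.card_fin] at h2
  rw [h2]
  have h3 : Real.exp (l / 2) + Real.exp (-(l / 2)) = 2 * Real.cosh (l / 2) := by
    rw [Real.cosh_eq]; ring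
  rw [h3, mul_pow]
  gcongr
  calc Real.cosh (l / 2) ^ n ≤ (Real.exp ((l / 2) ^ 2 / 2)) ^ n := by
        gcongr
        exact Real.cosh_le_exp_half_sq _
    _ = Real.exp (n * l ^ 2 / 8) := by
        rw [← Real.exp_nat_mul]; congr 1; ring

lemma tail_upper (hn : 0 < n) {a : ℝ} (ha : 0 ≤ a) :
    ((Finset.univ.filter fun A : Finset (Fin n) => (n : ℝ) / 2 + a ≤ A.card).card : ℝ)
      ≤ 2 ^ n * Real.exp (-(2 * a ^ 2 / n)) := by
  have hn' : (0 : ℝ) < n := by exact_mod_cast hn
  set l : ℝ := 4 * a / n with hl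
  have hl0 : 0 ≤ l := by positivity
  have h1 : ((Finset.univ.filter fun A : Finset (Fin n) => (n : ℝ) / 2 + a ≤ A.card).card : ℝ)
        * Real.exp (l * a)
      ≤ ∑ A : Finset (Fin n), Real.exp (l * ((A.card : ℝ) - n / 2)) := by
    rw [← nsmul_eq_mul, ← Finset.sum_const]
    refine (Finset.sum_le_sum ?_).trans
      (Finset.sum_le_sum_of_subset_of_nonneg (Finset.filter_subset _ _)
        fun A _ _ => (Real.exp_pos _).le)
    intro A hA
    rw [Finset.mem_filter] at hA
    apply Real.exp_le_exp.2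
    apply mul_le_mul_of_nonneg_left _ hl0
    linarith [hA.2]
  have h2 := h1.trans (sum_exp_card l)
  rw [← le_div_iff₀ (Real.exp_pos _)] at h2
  refine h2.trans (le_of_eq ?_)
  rw [mul_div_assoc, ← Real.exp_sub]
  congr 2
  rw [hl]
  field_simp
  ring

lemma tail_lower (hn : 0 < n) {a : ℝ} (ha : 0 ≤ a) :
    ((Finset.univ.filter fun A : Finset (Fin n) => (A.card : ℝ) ≤ (n : ℝ) / 2 - a).card : ℝ)
      ≤ 2 ^ n * Real.exp (-(2 * a ^ 2 / n)) := by
  have hn' : (0 : ℝ) < n := by exact_mod_cast hn
  set l : ℝ := 4 * a / n with hl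
  have hl0 : 0 ≤ l := by positivity
  have h1 : ((Finset.univ.filter fun A : Finset (Fin n) => (A.card : ℝ) ≤ (n : ℝ) / 2 - a).card : ℝ)
        * Real.exp (l * a)
      ≤ ∑ A : Finset (Fin n), Real.exp ((-l) * ((A.card : ℝ) - n / 2)) := by
    rw [← nsmul_eq_mul, ← Finset.sum_const]
    refine (Finset.sum_le_sum ?_).trans
      (Finset.sum_le_sum_of_subset_of_nonneg (Finset.filter_subset _ _)
        fun A _ _ => (Real.exp_pos _).le)
    intro A hA
    rw [Finset.mem_filter] at hA
    apply Real.exp_le_exp.2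
    nlinarith [hA.2]
  have h2 := h1.trans (sum_exp_card (-l))
  rw [← le_div_iff₀ (Real.exp_pos _)] at h2
  refine h2.trans (le_of_eq ?_)
  rw [mul_div_assoc, ← Real.exp_sub]
  congr 2
  rw [hl]
  field_simp
  ring

lemma upper_card_le (k : ℕ) : ((upper n k).card : ℝ) ≤ 2 ^ n := by
  have : (upper n k).card ≤ 2 ^ n := by
    refine (Finset.card_le_univ _).trans ?_
    simp
  exact_mod_cast this

lemma hZ_aux {y δ q : ℝ} {b m : ℕ} (hy : 3 ≤ y) (hyn : y ^ 3 = n)
    (hexp : 9 * y ^ 3 ≤ Real.exp (y / 20)) (hδ : δ = Real.exp (-(y / 10))) (hy3 : 9 * y ≤ y ^ 3)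
    (hqlow : Real.exp (-(3 * y / 20)) ≤ q) (h2n : Real.exp (0.69 * n) ≤ 2 ^ n)
    (hm4 : q * 2 ^ n ≤ (m : ℝ) / 4) (hb' : (b : ℝ) + 1 ≤ 2 * y ^ 2 + 3) (hq0 : 0 < q)
    (hδ0 : 0 < δ) :
    (n : ℝ) ≤ δ / 8 * q ^ b * ((m : ℝ) / 4) := by
  have h1 : Real.exp (-(3 * y / 20) * (2 * y ^ 2 + 3)) ≤ q ^ (b + 1) := by
    calc Real.exp (-(3 * y / 20) * (2 * y ^ 2 + 3)) ≤ Real.exp (-(3 * y / 20) * ((b : ℝ) + 1)) := by
          apply Real.exp_le_exp.2
          nlinarith
      _ = Real.exp (-(3 * y / 20)) ^ (b + 1) := by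
          rw [← Real.exp_nat_mul]; congr 1; push_cast; ring
      _ ≤ q ^ (b + 1) := by gcongr
  have h8 : Real.exp (-(21 / 10)) ≤ 1 / 8 := by
    rw [Real.exp_neg, one_div]
    apply inv_anti₀ (by norm_num)
    have := Real.exp_one_gt_d9
    have h21 : Real.exp (21 / 10) = (Real.exp 1) ^ 2 * Real.exp (1 / 10) := by
      rw [← Real.exp_nat_mul, ← Real.exp_add]; congr 1; norm_num
    have h22 : (1 : ℝ) + 1 / 10 ≤ Real.exp (1 / 10) := by
      have := Real.add_one_le_exp (1 / 10 : ℝ); linarith
    rw [h21]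
    calc (8 : ℝ) ≤ 2.7182 ^ 2 * (1 + 1 / 10) := by norm_num
      _ ≤ (Real.exp 1) ^ 2 * Real.exp (1 / 10) := by gcongr; linarith
  calc (n : ℝ) ≤ Real.exp (y / 20) := by
        rw [← hyn]; nlinarith
    _ ≤ Real.exp (-(y / 10) + -(21 / 10) + (-(3 * y / 20) * (2 * y ^ 2 + 3)) + 0.69 * n) := by
        apply Real.exp_le_exp.2
        rw [← hyn]; nlinarith
    _ = δ * Real.exp (-(21 / 10)) * Real.exp (-(3 * y / 20) * (2 * y ^ 2 + 3))
          * Real.exp (0.69 * n) := by
        rw [hδ, Real.exp_add, Real.exp_add, Real.exp_add]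
    _ ≤ δ * (1 / 8) * q ^ (b + 1) * 2 ^ n := by gcongr
    _ = δ / 8 * q ^ b * (q * 2 ^ n) := by rw [pow_succ]; ring
    _ ≤ δ / 8 * q ^ b * ((m : ℝ) / 4) := by gcongr

/-- The survival probability after `⌊exp (- n^(1/3) / 10) * 2^n⌋` steps is at most `n exp (-n)`. -/
lemma final_bound {y : ℝ} (hy : 3 ≤ y) (hyn : y ^ 3 = n) (hexp : 9 * y ^ 3 ≤ Real.exp (y / 20)) :
    avg^[⌊Real.exp (-(y / 10)) * 2 ^ n⌋₊] surv ({∅} : Finset (Finset (Fin n)))
      ≤ n * Real.exp (-(n : ℝ)) := by
  have hnR : (0 : ℝ) < n := by rw [← hyn]; positivity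
  have hn8 : (8 : ℝ) ≤ n := by
    rw [← hyn]
    calc (8 : ℝ) = 2 ^ 3 := by norm_num
      _ ≤ y ^ 3 := by gcongr; linarith
  have hn : 0 < n := by exact_mod_cast hnR
  set δ : ℝ := Real.exp (-(y / 10)) with hδ
  have hδ0 : 0 < δ := Real.exp_pos _
  have hδ1 : δ ≤ 1 := by rw [hδ]; apply Real.exp_le_one_iff.2; linarith
  set q : ℝ := δ / (9 * n) with hq
  have hq0 : 0 < q := by positivity
  have hqlow : Real.exp (-(3 * y / 20)) ≤ q := by
    rw [hq, hδ, ← hyn, le_div_iff₀ (by positivity)]
    calc Real.exp (-(3 * y / 20)) * (9 * y ^ 3) ≤ Real.exp (-(3 * y / 20)) * Real.exp (y / 20) := by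
          gcongr
      _ = Real.exp (-(y / 10)) := by rw [← Real.exp_add]; congr 1; ring
  have hq1 : q ≤ 1 := by
    rw [hq, div_le_one (by positivity)]
    linarith
  have h2n : Real.exp (0.69 * n) ≤ 2 ^ n := by
    have : (2 : ℝ) ^ n = Real.exp (n * Real.log 2) := by
      rw [Real.exp_nat_mul, Real.exp_log (by norm_num)]
    rw [this]
    apply Real.exp_le_exp.2
    have := Real.log_two_gt_d9
    nlinarith
  have hy3 : 9 * y ≤ y ^ 3 := by
    nlinarith [mul_nonneg (mul_nonneg (by linarith : (0 : ℝ) ≤ y) (by linarith : (0 : ℝ) ≤ y - 3))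
      (by linarith : (0 : ℝ) ≤ y + 3)]
  -- a lower bound for `δ 2^n`
  have hδn : 18 * (n : ℝ) ≤ δ * 2 ^ n := by
    have h1 : 18 * (n : ℝ) ≤ 2 * Real.exp (y / 20) := by rw [← hyn]; linarith
    have h2 : (2 : ℝ) ≤ Real.exp 1 := by have := Real.exp_one_gt_d9; linarith
    calc 18 * (n : ℝ) ≤ 2 * Real.exp (y / 20) := h1
      _ ≤ Real.exp 1 * Real.exp (y / 20) := by gcongr
      _ = Real.exp (1 + y / 20) := by rw [← Real.exp_add]
      _ ≤ Real.exp (-(y / 10) + 0.69 * n) := by
          apply Real.exp_le_exp.2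
          rw [← hyn]; nlinarith
      _ = δ * Real.exp (0.69 * n) := by rw [Real.exp_add]
      _ ≤ δ * 2 ^ n := by gcongr
  set t₀ : ℕ := ⌊δ * 2 ^ n / 2⌋₊ with ht₀
  set m : ℕ := ⌊δ * 2 ^ n / (2 * n)⌋₊ with hm
  set k₀ : ℕ := ⌈(n : ℝ) / 2 - y ^ 2⌉₊ with hk₀
  set b : ℕ := ⌈2 * y ^ 2⌉₊ + 1 with hb
  have hk₀n : k₀ ≤ n := by
    rw [hk₀]
    apply Nat.ceil_le.2
    nlinarith [sq_nonneg y]
  have hm4 : q * 2 ^ n ≤ (m : ℝ) / 4 := by
    have h1 : δ * 2 ^ n / (2 * n) - 1 < m := by
      rw [hm]; have := Nat.lt_floor_add_one (δ * 2 ^ n / (2 * n)); linarith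
    have h2 : 1 ≤ δ * 2 ^ n / (18 * n) := by
      rw [le_div_iff₀ (by positivity)]; linarith
    have h3 : δ * 2 ^ n / (2 * n) = 9 * (δ * 2 ^ n / (18 * n)) := by
      field_simp; ring
    have h4 : q * 2 ^ n = 2 * (δ * 2 ^ n / (18 * n)) := by
      rw [hq]; field_simp; ring
    rw [h4]
    linarith
  have ht₀' : δ * 2 ^ n * (4 / 9) ≤ t₀ := by
    have h1 : δ * 2 ^ n / 2 - 1 < t₀ := by
      rw [ht₀]; have := Nat.lt_floor_add_one (δ * 2 ^ n / 2); linarith
    linarith
  have htail : (2 : ℝ) ^ n * Real.exp (-(2 * (y ^ 2) ^ 2 / n)) ≤ q * 2 ^ n := by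
    have : 2 * (y ^ 2) ^ 2 / (n : ℝ) = 2 * y := by
      rw [← hyn]; field_simp
    rw [this, mul_comm]
    gcongr
    refine le_trans ?_ hqlow
    apply Real.exp_le_exp.2
    linarith
  let η : ℕ → ℝ := fun k => δ / 8 * q ^ min (k - k₀) b
  have hη : ∀ k, 0 < η k := fun k => by positivity
  have hηlow : ∀ k, δ / 8 * q ^ b ≤ η k := by
    intro k
    simp only [η]
    apply mul_le_mul_of_nonneg_left _ (by positivity)
    exact pow_le_pow_of_le_one hq0.le hq1 (min_le_right _ _)
  have hstep : ∀ k, k₀ ≤ k → k < n → η (k + 1) * (upper n (k + 1)).card ≤ η k * m / 4 := by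
    intro k hk1 hk2
    by_cases hkb : k - k₀ < b
    · have h1 : min (k + 1 - k₀) b = min (k - k₀) b + 1 := by omega
      have h2 : η (k + 1) = η k * q := by
        simp only [η]; rw [h1, pow_succ]; ring
      rw [h2]
      calc η k * q * (upper n (k + 1)).card ≤ η k * q * 2 ^ n := by
            have := hη k
            gcongr
            exact upper_card_le _
        _ = η k * (q * 2 ^ n) := by ring
        _ ≤ η k * ((m : ℝ) / 4) := by
            have := hη k
            gcongr
        _ = _ := by ring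
    · have h1 : min (k + 1 - k₀) b = min (k - k₀) b := by omega
      have h2 : η (k + 1) = η k := by simp only [η]; rw [h1]
      rw [h2]
      have h3 : ((upper n (k + 1)).card : ℝ) ≤ 2 ^ n * Real.exp (-(2 * (y ^ 2) ^ 2 / n)) := by
        refine le_trans ?_ (tail_upper hn (sq_nonneg y))
        have : (upper n (k + 1)).card
            ≤ (Finset.univ.filter fun A : Finset (Fin n) => (n : ℝ) / 2 + y ^ 2 ≤ A.card).card := by
          apply Finset.card_le_card
          intro A hA
          simp only [upper, Finset.mem_filter, Finset.mem_univ, true_and] at hA ⊢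
          have h4 : (n : ℝ) / 2 - y ^ 2 ≤ k₀ := Nat.le_ceil _
          have h5 : 2 * y ^ 2 ≤ (⌈2 * y ^ 2⌉₊ : ℝ) := Nat.le_ceil _
          have h6 : k₀ + (⌈2 * y ^ 2⌉₊ + 1) ≤ A.card := by omega
          have h7 : (k₀ : ℝ) + ((⌈2 * y ^ 2⌉₊ : ℝ) + 1) ≤ A.card := by exact_mod_cast h6
          linarith
        exact_mod_cast this
      calc η k * (upper n (k + 1)).card ≤ η k * (q * 2 ^ n) := by
            have := hη k
            gcongr
            exact h3.trans htail
        _ ≤ η k * ((m : ℝ) / 4) := by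
            have := hη k
            gcongr
        _ = _ := by ring
  have hstart : η k₀ * (upper n k₀).card +
      ((Finset.univ.filter fun A : Finset (Fin n) => ¬ k₀ ≤ A.card).card : ℝ) ≤ t₀ := by
    have h1 : η k₀ = δ / 8 := by simp [η]
    have h2 : ((Finset.univ.filter fun A : Finset (Fin n) => ¬ k₀ ≤ A.card).card : ℝ)
        ≤ 2 ^ n * Real.exp (-(2 * (y ^ 2) ^ 2 / n)) := by
      refine le_trans ?_ (tail_lower hn (sq_nonneg y))
      have : (Finset.univ.filter fun A : Finset (Fin n) => ¬ k₀ ≤ A.card).card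
          ≤ (Finset.univ.filter fun A : Finset (Fin n) => (A.card : ℝ) ≤ (n : ℝ) / 2 - y ^ 2).card := by
        apply Finset.card_le_card
        intro A hA
        simp only [Finset.mem_filter, Finset.mem_univ, true_and, not_le] at hA ⊢
        exact (Nat.lt_ceil.1 hA).le
      exact_mod_cast this
    have h3 : δ / 8 * ((upper n k₀).card : ℝ) ≤ δ / 8 * 2 ^ n := by
      gcongr
      exact upper_card_le _
    have h4 : q * 2 ^ n ≤ δ * 2 ^ n / 9 := by
      rw [hq, div_mul_eq_mul_div, div_le_div_iff₀ (by positivity) (by norm_num)]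
      have : 0 < δ * 2 ^ n := by positivity
      nlinarith
    rw [h1]
    have h5 : 0 < δ * 2 ^ n := by positivity
    linarith
  have hT : t₀ + (n - k₀) * m ≤ ⌊δ * 2 ^ n⌋₊ := by
    apply Nat.le_floor
    have h1 : (t₀ : ℝ) ≤ δ * 2 ^ n / 2 := Nat.floor_le (by positivity)
    have h2 : (m : ℝ) ≤ δ * 2 ^ n / (2 * n) := Nat.floor_le (by positivity)
    have h3 : ((n - k₀ : ℕ) : ℝ) ≤ n := by exact_mod_cast Nat.sub_le _ _
    push_cast
    calc (t₀ : ℝ) + ((n - k₀ : ℕ) : ℝ) * m ≤ δ * 2 ^ n / 2 + n * (δ * 2 ^ n / (2 * n)) := by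
          gcongr
      _ = δ * 2 ^ n := by field_simp; ring
  have hmain := survive_total hk₀n hη hstep hstart hT
  refine hmain.trans ?_
  -- each term is at most `exp (-n)`
  have hb' : (b : ℝ) + 1 ≤ 2 * y ^ 2 + 3 := by
    have := Nat.ceil_lt_add_one (a := 2 * y ^ 2) (by positivity)
    rw [hb]; push_cast; linarith
  have hZ : (n : ℝ) ≤ δ / 8 * q ^ b * ((m : ℝ) / 4) :=
    hZ_aux hy hyn hexp hδ hy3 hqlow h2n hm4 hb' hq0 hδ0
  calc ∑ i ∈ Finset.range (n - k₀), Real.exp (-(η (k₀ + i) * m / 4))
      ≤ ∑ _i ∈ Finset.range (n - k₀), Real.exp (-(n : ℝ)) := by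
        apply Finset.sum_le_sum
        intro i _
        apply Real.exp_le_exp.2
        have h1 := hηlow (k₀ + i)
        have h2 : δ / 8 * q ^ b * ((m : ℝ) / 4) ≤ η (k₀ + i) * ((m : ℝ) / 4) := by gcongr
        have h3 : η (k₀ + i) * ((m : ℝ) / 4) = η (k₀ + i) * m / 4 := by ring
        linarith
    _ = ((n - k₀ : ℕ) : ℝ) * Real.exp (-(n : ℝ)) := by
        rw [Finset.sum_const, Finset.card_range, nsmul_eq_mul]
    _ ≤ n * Real.exp (-(n : ℝ)) := by
        gcongr
        exact_mod_cast Nat.sub_le _ _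

end Asymp

/-- Quantitative form: the process ends before `exp (- n^(1/3) / 10) * 2^n` steps. -/
theorem quantitative :
    Tendsto (fun n : ℕ => walkLaw n {ρ |
        ENNReal.ofReal (Real.exp (-((n : ℝ) ^ ((1 : ℝ) / 3) / 10)) * 2 ^ n)
          < ((tEnd ρ : ℕ∞) : ENNReal)})
      atTop (𝓝 0) := by
  have hy : Tendsto (fun n : ℕ => (n : ℝ) ^ ((1 : ℝ) / 3)) atTop atTop :=
    (tendsto_rpow_atTop (by norm_num)).comp tendsto_natCast_atTop_atTop
  have h1 : ∀ᶠ y : ℝ in atTop, 9 * y ^ 3 ≤ Real.exp (y / 20) := by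
    have h := (Real.tendsto_exp_div_pow_atTop 3).comp (tendsto_id.atTop_div_const (r := (20 : ℝ))
      (by norm_num : (0 : ℝ) < 20))
    filter_upwards [h.eventually_ge_atTop (9 * 20 ^ 3), eventually_gt_atTop 0] with y h2 h3
    simp only [Function.comp, id] at h2
    rw [le_div_iff₀ (by positivity)] at h2
    calc 9 * y ^ 3 = 9 * 20 ^ 3 * (y / 20) ^ 3 := by ring
      _ ≤ _ := h2
  have h2 : Tendsto (fun n : ℕ => ENNReal.ofReal (n * Real.exp (-(n : ℝ)))) atTop (𝓝 0) := by
    have := (Real.tendsto_pow_mul_exp_neg_atTop_nhds_zero 1).comp tendsto_natCast_atTop_atTop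
    have h3 := ENNReal.tendsto_ofReal this
    simpa [Function.comp_def] using h3
  refine tendsto_of_tendsto_of_tendsto_of_le_of_le' tendsto_const_nhds h2
    (Eventually.of_forall fun _ => zero_le) ?_
  filter_upwards [hy.eventually (h1.and (eventually_ge_atTop 3))] with n hn
  obtain ⟨ha, hb⟩ := hn
  have hyn : ((n : ℝ) ^ ((1 : ℝ) / 3)) ^ 3 = n := by
    rw [← Real.rpow_natCast, ← Real.rpow_mul (by positivity)]
    norm_num
  refine (prob_tEnd_le _ ⌊Real.exp (-((n : ℝ) ^ ((1 : ℝ) / 3) / 10)) * 2 ^ n⌋₊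
    (Nat.floor_le (by positivity))).trans ?_
  exact ENNReal.ofReal_le_ofReal (final_bound hb hyn ha)

end Pool.Agent.Lib.Pdb93e3
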